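import Pool.Agent.V1166.Sph.Realize
import Pool.Agent.V1166.Sph.Idem
import Mathlib.Algebra.Category.ModuleCat.Colimits

/-!
For every field `𝕜`, every `n ≥ 3` and every `k ≠ 0` there are two `ℙⁿ[k]`-objects generating a
proper idempotent complete algebraic triangulated category `A` such that no triangulated functor
out of `A` is a spherification functor for both of them.
-/

open CategoryTheory Limits Pretriangulated

namespace Pool.Agent.Results.MP_a50f7c_ag.NoSpherification

open Pool.Agent.V1166.Sph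

universe u v w

theorem result (𝕜 : Type u) [Field 𝕜] (n : ℕ) (hn : 3 ≤ n) (k : ℤ) (hk : k ≠ 0) :
    ∃ (A : Type (u + 1)) (_ : Category.{u} A) (_ : Preadditive A) (_ : Linear 𝕜 A)
      (_ : HasZeroObject A) (_ : HasShift A ℤ) (_ : ∀ i : ℤ, (shiftFunctor A i).Additive)
      (_ : ∀ i : ℤ, (shiftFunctor A i).Linear 𝕜) (_ : Pretriangulated A) (_ : IsTriangulated A)
      (P₁ P₂ : A),
      IsAlgebraicTri.{u, u, u + 1, u, u + 1} 𝕜 A ∧ IsProper 𝕜 A ∧ IsIdempotentComplete A ∧
      IsPObject 𝕜 n k P₁ ∧ IsPObject 𝕜 n k P₂ ∧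
      (∀ Q : ObjectProperty A, Q.IsTriangulated → Q.IsStableUnderRetracts →
        Q P₁ → Q P₂ → ∀ X : A, Q X) ∧
      ∀ (B : Type w) [Category.{v} B] [Preadditive B] [Linear 𝕜 B] [HasZeroObject B]
        [HasShift B ℤ] [∀ i : ℤ, (shiftFunctor B i).Additive] [Pretriangulated B]
        (F : A ⥤ B) [F.CommShift ℤ] [F.IsTriangulated] [F.Linear 𝕜] (D : DualCotwist F),
        ¬ (D.IsSpherification 𝕜 n k P₁ ∧ D.IsSpherification 𝕜 n k P₂) := by
  let G := alg n hn k hk
  let M := modelA 𝕜 G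
  have hgen := generates 𝕜 G
  refine ⟨CatA 𝕜 G, inferInstance, inferInstance, inferInstance, inferInstance, inferInstance,
    inferInstance, inferInstance, inferInstance, inferInstance, objP 𝕜 G false, objP 𝕜 G true,
    isAlgebraicTri 𝕜 G, isProper M hgen, isIdempotentComplete_fullSubcategory (thick 𝕜 G),
    isPObject M hgen false, isPObject M hgen true, hgen, ?_⟩
  intro B _ _ _ _ _ _ _ F _ _ _ D hD
  obtain ⟨⟨e₁⟩, h₁, -⟩ := hD.1
  obtain ⟨⟨e₂⟩, -, -⟩ := hD.2
  exact obstruction M D.C' D.α e₁ e₂ h₁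

end Pool.Agent.Results.MP_a50f7c_ag.NoSpherification
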